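import Pool.Agent.Helper69.UW.Defs
import Pool.Agent.Helper36.UG.Ek

/-! # UW, blocks R1, R1b, R2, R4, R4': the resonator -/

set_option autoImplicit false
open MeasureTheory Set Filter Topology
open Pool.Agent.Helper69.UW
open Pool.Agent.Helper69.UG (pt XX NR NM WW)
open Pool.Agent.Helper69.UV (ww HH)
open Pool.Agent.Helper36.UG (A ek A_nonneg ek_nonneg A_succ A_insert A_le_erase A_tail ek_le_A one_le_A sum_transfer)

namespace Pool.Agent.Helper36.UW

variable {δ : ℝ}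

theorem PR_prime {T c m : ℝ} : ∀ p ∈ PR δ T c m, p.Prime := fun _ hp => (Finset.mem_filter.1 hp).2.1

theorem PR_le {T c m : ℝ} (hT : 0 ≤ T) {p : ℕ} (hp : p ∈ PR δ T c m) : (p : ℝ) ≤ T ^ (δ / (64 * m)) := by
  have h1 := Finset.mem_range.1 (Finset.mem_filter.1 hp).1
  exact (Nat.le_floor_iff (Real.rpow_nonneg hT _)).1 (by omega)

open Classical in
theorem rr_ne {T c m v : ℝ} {n : ℕ} (h : rr δ T c m v n ≠ 0) :
    Squarefree n ∧ n.primeFactors ⊆ PR δ T c m ∧ n.primeFactors.card ≤ KR δ m := by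
  unfold rr at h
  by_contra hn
  rw [if_neg hn] at h
  exact h rfl

/-- R1 -/
theorem rr_supp {T c m v : ℝ} (hδ : 0 < δ) (hT : 1 ≤ T) (hm : 0 < m) {n : ℕ} (h : rr δ T c m v n ≠ 0) :
    1 ≤ n ∧ n ≤ NR T ∧ Squarefree n := by
  obtain ⟨hsq, hsub, hcard⟩ := rr_ne h
  refine ⟨Nat.one_le_iff_ne_zero.2 hsq.ne_zero, ?_, hsq⟩
  have hT0 : (0:ℝ) ≤ T := by linarith
  refine Nat.le_floor ?_
  have h1 : (n : ℝ) = ∏ p ∈ n.primeFactors, (p : ℝ) := by
    rw [← Nat.cast_prod, Nat.prod_primeFactors_of_squarefree hsq]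
  have h2 : ∏ p ∈ n.primeFactors, (p : ℝ) ≤ ∏ _p ∈ n.primeFactors, T ^ (δ / (64 * m)) :=
    Finset.prod_le_prod (fun p _ => Nat.cast_nonneg p) fun p hp => PR_le hT0 (hsub hp)
  rw [Finset.prod_const] at h2
  have h3 : (T ^ (δ / (64 * m))) ^ n.primeFactors.card ≤ T ^ (1 / 8 : ℝ) := by
    rw [← Real.rpow_natCast, ← Real.rpow_mul hT0]
    refine Real.rpow_le_rpow_of_exponent_le hT ?_
    have h4 : (n.primeFactors.card : ℝ) ≤ 8 * m / δ := by
      have h5 : (n.primeFactors.card : ℝ) ≤ (KR δ m : ℝ) := by exact_mod_cast hcard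
      exact h5.trans (Nat.floor_le (by positivity))
    calc δ / (64 * m) * (n.primeFactors.card : ℝ) ≤ δ / (64 * m) * (8 * m / δ) :=
          mul_le_mul_of_nonneg_left h4 (by positivity)
      _ = 1 / 8 := by field_simp; norm_num
  rw [h1]
  exact h2.trans h3

/-- R1b -/
theorem rp_le (T c v : ℝ) (p : ℕ) : |sw T c p| ≤ 1 ∧ |rp T c v p| ≤ |v| := by
  have h1 : |sw T c p| ≤ 1 := Real.abs_sin_le_one _
  refine ⟨h1, ?_⟩
  unfold rp
  rw [abs_mul]
  exact mul_le_of_le_one_right (abs_nonneg v) h1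

/-- Basic size facts. -/
theorem adm_facts {c0 T c m : ℝ} (hc0 : 1 ≤ c0) (hT : Real.exp (Real.exp 1) ≤ T) (h : Adm c0 T c m) :
    1 ≤ T ∧ 1 ≤ m ∧ m ≤ c ∧ 1 ≤ Real.log (Real.log T) ∧ 2 ≤ Real.log T ∧ c ≤ Real.log T := by
  have hTpos : 0 < T := (Real.exp_pos _).trans_le hT
  have hL : Real.exp 1 ≤ Real.log T := (Real.le_log_iff_exp_le hTpos).2 hT
  have he : (2:ℝ) ≤ Real.exp 1 := by linarith [Real.add_one_le_exp (1:ℝ)]
  have hLpos : 0 < Real.log T := by linarith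
  have hLL : 1 ≤ Real.log (Real.log T) := (Real.le_log_iff_exp_le hLpos).2 hL
  have hT1 : 1 ≤ T := by
    have : Real.exp 0 ≤ Real.exp (Real.exp 1) := Real.exp_le_exp.2 (by linarith)
    rw [Real.exp_zero] at this
    linarith
  have hc : 0 < c := by linarith [h.1]
  refine ⟨hT1, h.2.1, h.m_le_c hc0, hLL, by linarith, ?_⟩
  have h5 := h.2.2.2.2
  nlinarith

/-- `v² ≤ 36 m/ll²`, `v² ≤ m` -/
theorem v_facts {c0 T c m v : ℝ} (hδ : 0 < δ) (hδ1 : δ ≤ 1 / 32) (hc0 : Real.exp 12 ≤ c0) (h : Adm c0 T c m)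
    (hv : |v| = vv δ c m) : 12 ≤ ll c m ∧ v ^ 2 * ll c m ≤ 3 * m ∧ |v| ≤ √m := by
  have he : (1:ℝ) < Real.exp 12 := by linarith [Real.add_one_le_exp (12:ℝ)]
  have hl : 12 ≤ ll c m := by
    have h1 := h.log_le_ll (by linarith : (0:ℝ) < c0)
    have h2 : 12 ≤ Real.log c0 := (Real.le_log_iff_exp_le (by linarith)).2 hc0
    linarith
  have h2 := vv_le hδ hδ1 h (by linarith)
  rw [← hv] at h2
  have hm : 0 < m := by linarith [h.2.1]
  have hlpos : 0 < ll c m := by linarith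
  have hs : 0 ≤ √m := Real.sqrt_nonneg m
  refine ⟨hl, ?_, ?_⟩
  · have h3 : v ^ 2 ≤ (6 * √m / ll c m) ^ 2 := by
      rw [← sq_abs v]
      exact pow_le_pow_left₀ (abs_nonneg v) h2 2
    have h4 : (6 * √m / ll c m) ^ 2 = 36 * m / ll c m ^ 2 := by
      rw [div_pow, mul_pow, Real.sq_sqrt hm.le]
      norm_num
    rw [h4] at h3
    calc v ^ 2 * ll c m ≤ 36 * m / ll c m ^ 2 * ll c m := mul_le_mul_of_nonneg_right h3 hlpos.le
      _ = 36 * m / ll c m := by field_simp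
      _ ≤ 3 * m := by
          rw [div_le_iff₀ hlpos]
          nlinarith
  · refine h2.trans ?_
    rw [div_le_iff₀ hlpos]
    nlinarith

theorem sqf_prod {S : Finset ℕ} (h : ∀ q ∈ S, q.Prime) : Squarefree (∏ q ∈ S, q) := by
  refine Finset.squarefree_prod_of_pairwise_isCoprime ?_ fun q hq => (h q hq).squarefree
  intro a ha b hb hab
  exact Nat.coprime_iff_isRelPrime.1 ((Nat.coprime_primes (h a ha) (h b hb)).2 hab)

theorem VV_eq {T c m v : ℝ} (hδ : 0 < δ) (hT : 1 ≤ T) (hm : 0 < m) :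
    VV δ T c m v = A (PR δ T c m) (fun p => rp T c v p ^ 2 / p) (KR δ m) := by
  classical
  unfold VV A
  rw [sum_transfer (P := PR δ T c m) PR_prime (fun n => rr δ T c m v n ^ 2 / n)]
  · refine Finset.sum_congr rfl fun S hS => ?_
    have hSP := Finset.mem_powerset.1 hS
    have hpr : ∀ p ∈ S, p.Prime := fun p hp => PR_prime p (hSP hp)
    have hpf : (∏ p ∈ S, p).primeFactors = S := Nat.primeFactors_prod hpr
    have hcast : ((∏ p ∈ S, p : ℕ) : ℝ) = ∏ p ∈ S, (p : ℝ) := Nat.cast_prod _ _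
    unfold rr
    rw [hpf, hcast]
    by_cases hk : S.card ≤ KR δ m
    · rw [if_pos ⟨sqf_prod hpr, hSP, hk⟩, if_pos hk, Finset.prod_div_distrib, Finset.prod_pow]
    · rw [if_neg (fun h => hk h.2.2), if_neg hk]
      simp
  · intro n hn
    have hn' : rr δ T c m v n ≠ 0 := by
      intro h
      rw [h] at hn
      simp at hn
    obtain ⟨h1, h2, h3⟩ := rr_supp hδ hT hm hn'
    exact ⟨Finset.mem_Icc.2 ⟨h1, h2⟩, h3, (rr_ne hn').2.1⟩

theorem WP_eq {T c m v : ℝ} (hδ : 0 < δ) (hT : 1 ≤ T) (hm : 0 < m) {p : ℕ} (hp : p ∈ PR δ T c m) {K : ℕ}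
    (hK : KR δ m = K + 1) :
    WP δ T c m v p = rp T c v p * A ((PR δ T c m).erase p) (fun p => rp T c v p ^ 2 / p) K := by
  classical
  have hpp : p.Prime := PR_prime p hp
  unfold WP A
  have hQ : ∀ q ∈ (PR δ T c m).erase p, q.Prime := fun q hq => PR_prime q (Finset.mem_of_mem_erase hq)
  rw [sum_transfer (P := (PR δ T c m).erase p) hQ (fun n => rr δ T c m v n * rr δ T c m v (p * n) / n), Finset.mul_sum]
  · refine Finset.sum_congr rfl fun S hS => ?_
    have hSQ := Finset.mem_powerset.1 hS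
    have hSP : S ⊆ PR δ T c m := hSQ.trans (Finset.erase_subset _ _)
    have hpS : p ∉ S := fun h => Finset.notMem_erase p _ (hSQ h)
    have hpr : ∀ q ∈ S, q.Prime := fun q hq => PR_prime q (hSP hq)
    have hpr' : ∀ q ∈ insert p S, q.Prime := by
      intro q hq
      rcases Finset.mem_insert.1 hq with rfl | hq
      · exact hpp
      · exact hpr q hq
    have hpf : (∏ q ∈ S, q).primeFactors = S := Nat.primeFactors_prod hpr
    have hins : p * ∏ q ∈ S, q = ∏ q ∈ insert p S, q := (Finset.prod_insert (f := fun q => q) hpS).symm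
    have hpf' : (p * ∏ q ∈ S, q).primeFactors = insert p S := by
      rw [hins]
      exact Nat.primeFactors_prod hpr'
    have hsq := sqf_prod hpr
    have hsq' : Squarefree (p * ∏ q ∈ S, q) := by
      rw [hins]
      exact sqf_prod hpr'
    have hSP' : insert p S ⊆ PR δ T c m := Finset.insert_subset hp hSP
    have hcast : ((∏ p ∈ S, p : ℕ) : ℝ) = ∏ p ∈ S, (p : ℝ) := Nat.cast_prod _ _
    unfold rr
    rw [hpf, hpf', hcast, Finset.card_insert_of_notMem hpS, hK]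
    by_cases hk : S.card ≤ K
    · rw [if_pos ⟨hsq, hSP, by omega⟩, if_pos ⟨hsq', hSP', by omega⟩, if_pos hk, Finset.prod_insert hpS,
        Finset.prod_div_distrib, Finset.prod_pow]
      ring
    · have h1 : ¬ (Squarefree (p * ∏ q ∈ S, q) ∧ insert p S ⊆ PR δ T c m ∧ S.card + 1 ≤ K + 1) := fun h => by
        have := h.2.2
        omega
      rw [if_neg h1, if_neg hk]
      simp
  · intro n hn
    have hn1 : rr δ T c m v n ≠ 0 := by
      intro h
      simp only [h, zero_mul, zero_div, ne_eq, not_true_eq_false] at hn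
    have hn2 : rr δ T c m v (p * n) ≠ 0 := by
      intro h
      simp only [h, mul_zero, zero_div, ne_eq, not_true_eq_false] at hn
    obtain ⟨h1, h2, h3⟩ := rr_supp hδ hT hm hn1
    refine ⟨Finset.mem_Icc.2 ⟨h1, h2⟩, h3, ?_⟩
    intro q hq
    refine Finset.mem_erase.2 ⟨?_, (rr_ne hn1).2.1 hq⟩
    rintro rfl
    have hdvd : q ∣ n := Nat.dvd_of_mem_primeFactors hq
    have hsq := (rr_ne hn2).1
    have := hsq q (Nat.mul_dvd_mul_left q hdvd)
    exact hpp.one_lt.ne' (Nat.isUnit_iff.1 this)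

/-- R2 -/
theorem rr_bd (hδ : 0 < δ) (hδ1 : δ ≤ 1 / 32) : ∃ c0 T0 : ℝ, ∀ T c m v : ℝ, T0 ≤ T → Adm c0 T c m → |v| = vv δ c m →
    ∀ n, |rr δ T c m v n| ≤ T ^ (1 / 192 : ℝ) ∧ 1 ≤ VV δ T c m v := by
  classical
  refine ⟨Real.exp 12 + 12 / δ, Real.exp (Real.exp 1), fun T c m v hT hA hv n => ?_⟩
  have hδi : 0 < 12 / δ := by positivity
  have he : (1:ℝ) < Real.exp 12 := by linarith [Real.add_one_le_exp (12:ℝ)]
  obtain ⟨hT1, hm1, hmc, hLL, hL, hcL⟩ := adm_facts (by linarith) hT hA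
  obtain ⟨hl, _, hvm⟩ := v_facts hδ hδ1 (by linarith) hA hv
  have hTpos : (0:ℝ) < T := by linarith
  have hmpos : (0:ℝ) < m := by linarith
  constructor
  · have hT192 : (1:ℝ) ≤ T ^ (1 / 192 : ℝ) := Real.one_le_rpow hT1 (by norm_num)
    by_cases h : rr δ T c m v n = 0
    · rw [h, abs_zero]
      linarith
    · obtain ⟨h1, h2, h3⟩ := rr_ne h
      have h4 : rr δ T c m v n = ∏ p ∈ n.primeFactors, rp T c v p := by
        unfold rr
        rw [if_pos ⟨h1, h2, h3⟩]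
      rw [h4, Finset.abs_prod]
      have hsm : 1 ≤ √m := Real.one_le_sqrt.2 hm1
      have h5 : ∏ p ∈ n.primeFactors, |rp T c v p| ≤ √m ^ n.primeFactors.card := by
        rw [← Finset.prod_const]
        exact Finset.prod_le_prod (fun p _ => abs_nonneg _) fun p _ => (rp_le T c v p).2.trans hvm
      refine h5.trans ?_
      have h6 : (n.primeFactors.card : ℝ) ≤ 8 * m / δ := by
        have h5 : (n.primeFactors.card : ℝ) ≤ (KR δ m : ℝ) := by exact_mod_cast h3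
        exact h5.trans (Nat.floor_le (by positivity))
      have h9 : √m ^ n.primeFactors.card = Real.exp (n.primeFactors.card * (Real.log m / 2)) := by
        rw [← Real.log_sqrt hmpos.le, mul_comm, Real.exp_mul, Real.exp_log (by positivity), Real.rpow_natCast]
      rw [h9, Real.rpow_def_of_pos hTpos]
      refine Real.exp_le_exp.2 ?_
      have h10 : Real.log m ≤ Real.log (Real.log T) := Real.log_le_log hmpos (hmc.trans hcL)
      have h11 : 0 ≤ Real.log m := Real.log_nonneg hm1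
      have h12 : 12 / δ * m ≤ c := by
        have h13 := hA.2.2.2.1
        have h14 : 0 ≤ Real.exp 12 * m := by positivity
        nlinarith
      have h13 := hA.2.2.2.2
      have h15 : 64 * (12 / δ * m * Real.log (Real.log T)) ≤ Real.log T := by
        refine le_trans ?_ h13
        have : 12 / δ * m * Real.log (Real.log T) ≤ c * Real.log (Real.log T) :=
          mul_le_mul_of_nonneg_right h12 (by linarith)
        linarith
      calc (n.primeFactors.card : ℝ) * (Real.log m / 2) ≤ 8 * m / δ * (Real.log m / 2) :=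
            mul_le_mul_of_nonneg_right h6 (by positivity)
        _ ≤ 8 * m / δ * (Real.log (Real.log T) / 2) := by
            refine mul_le_mul_of_nonneg_left ?_ (by positivity)
            linarith
        _ = 64 * (12 / δ * m * Real.log (Real.log T)) / 192 := by ring
        _ ≤ Real.log T / 192 := by linarith
        _ = Real.log T * (1 / 192) := by ring
  · rw [VV_eq hδ hT1 hmpos]
    exact one_le_A (fun p _ => by positivity) _

/-- The statement of R3. -/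
def R3 (δ : ℝ) : Prop := ∃ c0 T0 : ℝ, ∀ T c m : ℝ, T0 ≤ T → Adm c0 T c m →
    (∀ p ∈ PR δ T c m, p.Prime ∧ Real.log T ^ 4 < p ∧ Real.log T ^ 60 < p ∧ (p : ℝ) ≤ T ^ (1 / 1000 : ℝ) ∧
      64 * m * Real.log p ≤ δ * Real.log T ∧ 1 < ww T c p) ∧
    1 ≤ ∑ p ∈ PR δ T c m, (1 / p : ℝ) ∧ ∑ p ∈ PR δ T c m, (1 / p : ℝ) ≤ ll c m

/-- What R4, R4' use. -/
theorem res_facts (hδ : 0 < δ) (hδ1 : δ ≤ 1 / 32) (hR3 : R3 δ) : ∃ c0 T0 : ℝ, ∀ T c m v : ℝ, T0 ≤ T → Adm c0 T c m →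
    |v| = vv δ c m → 1 ≤ T ∧ 1 ≤ m ∧ ∑ p ∈ PR δ T c m, rp T c v p ^ 2 / p ≤ 3 * m ∧
      (∀ p ∈ PR δ T c m, rp T c v p ^ 2 / p ≤ δ / 2) ∧ ∑ p ∈ PR δ T c m, (rp T c v p ^ 2 / p) ^ 2 ≤ 1 / 4 := by
  obtain ⟨c3, T3, h3⟩ := hR3
  refine ⟨max (Real.exp 12) c3, max T3 (max (Real.exp (Real.exp 1)) (Real.exp (2 / δ))), fun T c m v hT hA hv => ?_⟩
  have hA1 : Adm c3 T c m := hA.mono (le_max_right _ _)
  have hA2 : Adm (Real.exp 12) T c m := hA.mono (le_max_left _ _)
  have he : (1:ℝ) < Real.exp 12 := by linarith [Real.add_one_le_exp (12:ℝ)]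
  obtain ⟨hT1, hm1, hmc, hLL, hL, hcL⟩ := adm_facts he.le (((le_max_left _ _).trans (le_max_right _ _)).trans hT) hA2
  obtain ⟨hl, hv1, hvm⟩ := v_facts hδ hδ1 le_rfl hA2 hv
  obtain ⟨hPR, _, hsum⟩ := h3 T c m ((le_max_left _ _).trans hT) hA1
  have hTpos : (0:ℝ) < T := by linarith
  have hmpos : (0:ℝ) < m := by linarith
  have hLδ : 2 / δ ≤ Real.log T :=
    (Real.le_log_iff_exp_le hTpos).2 (((le_max_right _ _).trans (le_max_right _ _)).trans hT)
  set L := Real.log T with hLdef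
  have hpos : ∀ p ∈ PR δ T c m, (0:ℝ) < p := fun p hp => by exact_mod_cast (hPR p hp).1.pos
  have hr2 : ∀ p, rp T c v p ^ 2 ≤ v ^ 2 := fun p => by
    rw [← sq_abs, ← sq_abs v]
    exact pow_le_pow_left₀ (abs_nonneg _) (rp_le T c v p).2 2
  have hv2 : v ^ 2 ≤ m := by
    rw [← sq_abs v]
    calc |v| ^ 2 ≤ √m ^ 2 := pow_le_pow_left₀ (abs_nonneg _) hvm 2
      _ = m := Real.sq_sqrt hmpos.le
  have hsumv : ∑ p ∈ PR δ T c m, rp T c v p ^ 2 / p ≤ 3 * m := by
    calc ∑ p ∈ PR δ T c m, rp T c v p ^ 2 / (p : ℝ) ≤ ∑ p ∈ PR δ T c m, v ^ 2 * (1 / (p : ℝ)) := by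
          refine Finset.sum_le_sum fun p hp => ?_
          rw [mul_one_div]
          exact div_le_div_of_nonneg_right (hr2 p) (hpos p hp).le
      _ = v ^ 2 * ∑ p ∈ PR δ T c m, (1 / p : ℝ) := by rw [Finset.mul_sum]
      _ ≤ v ^ 2 * ll c m := mul_le_mul_of_nonneg_left hsum (sq_nonneg v)
      _ ≤ 3 * m := hv1
  have hgp : ∀ p ∈ PR δ T c m, rp T c v p ^ 2 / p ≤ 1 / L ^ 3 := by
    intro p hp
    have h1 := (hPR p hp).2.1
    have h2 := hpos p hp
    rw [div_le_div_iff₀ h2 (by positivity), one_mul]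
    calc rp T c v p ^ 2 * L ^ 3 ≤ L * L ^ 3 :=
          mul_le_mul_of_nonneg_right ((hr2 p).trans (hv2.trans (hmc.trans hcL))) (by positivity)
      _ = L ^ 4 := by ring
      _ ≤ p := h1.le
  refine ⟨hT1, hm1, hsumv, fun p hp => (hgp p hp).trans ?_, ?_⟩
  · have h1 : L ≤ L ^ 3 := le_self_pow₀ (by linarith) (by norm_num)
    calc 1 / L ^ 3 ≤ 1 / L := one_div_le_one_div_of_le (by linarith) h1
      _ ≤ 1 / (2 / δ) := one_div_le_one_div_of_le (by positivity) hLδ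
      _ = δ / 2 := by field_simp
  · calc ∑ p ∈ PR δ T c m, (rp T c v p ^ 2 / (p : ℝ)) ^ 2
        ≤ ∑ p ∈ PR δ T c m, 1 / L ^ 3 * (rp T c v p ^ 2 / (p : ℝ)) := by
          refine Finset.sum_le_sum fun p hp => ?_
          rw [sq]
          refine mul_le_mul_of_nonneg_right (hgp p hp) ?_
          have := hpos p hp
          positivity
      _ = 1 / L ^ 3 * ∑ p ∈ PR δ T c m, rp T c v p ^ 2 / (p : ℝ) := by rw [Finset.mul_sum]
      _ ≤ 1 / L ^ 3 * (3 * (L / 64)) := by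
          refine mul_le_mul_of_nonneg_left (hsumv.trans ?_) (by positivity)
          have h5 := hA2.2.2.2.2
          have h6 : c * 1 ≤ c * Real.log L := mul_le_mul_of_nonneg_left hLL (by linarith [hA2.1])
          linarith
      _ = 3 / 64 / L ^ 2 := by
          field_simp
      _ ≤ 3 / 64 := div_le_self (by norm_num) (one_le_pow₀ (by linarith))
      _ ≤ 1 / 4 := by norm_num

theorem KR_facts {m : ℝ} (hδ : 0 < δ) (hδ1 : δ ≤ 1 / 32) (hm : 1 ≤ m) : ∃ K : ℕ, KR δ m = K + 1 ∧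
    3 * m ≤ δ / 2 * ((K : ℝ) + 1) := by
  have h0 : (1:ℝ) ≤ 8 * m / δ := by
    rw [le_div_iff₀ hδ]
    nlinarith
  obtain ⟨K, hK⟩ : ∃ K, KR δ m = K + 1 := by
    have h1 : 1 ≤ KR δ m := Nat.le_floor (by exact_mod_cast h0)
    exact ⟨KR δ m - 1, by omega⟩
  refine ⟨K, hK, ?_⟩
  have h1 : 8 * m / δ < (KR δ m : ℝ) + 1 := Nat.lt_floor_add_one _
  rw [hK] at h1
  push_cast at h1
  have h2 : 8 * m < ((K : ℝ) + 1 + 1) * δ := (div_lt_iff₀ hδ).1 h1
  nlinarith

/-- R4 from R3. -/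
theorem WP_bd_of (hδ : 0 < δ) (hδ1 : δ ≤ 1 / 32) (hR3 : R3 δ) : ∃ c0 T0 : ℝ, ∀ T c m v : ℝ, T0 ≤ T → Adm c0 T c m →
    |v| = vv δ c m → ∀ p ∈ PR δ T c m,
    (1 - δ) * rp T c v p ^ 2 * VV δ T c m v ≤ rp T c v p * WP δ T c m v p ∧
    |WP δ T c m v p| ≤ |rp T c v p| * VV δ T c m v := by
  obtain ⟨c0, T0, hf⟩ := res_facts hδ hδ1 hR3
  refine ⟨c0, T0, fun T c m v hT hA hv p hp => ?_⟩
  obtain ⟨hT1, hm1, hsum, hgp, _⟩ := hf T c m v hT hA hv
  have hmpos : (0:ℝ) < m := by linarith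
  obtain ⟨K, hK, hK3⟩ := KR_facts hδ hδ1 hm1
  set g : ℕ → ℝ := fun p => rp T c v p ^ 2 / p with hg
  have hg0 : ∀ q ∈ PR δ T c m, 0 ≤ g q := fun q _ => by simp only [hg]; positivity
  have hV := VV_eq (c := c) (v := v) hδ hT1 hmpos
  have hW := WP_eq (v := v) hδ hT1 hmpos hp hK
  rw [hK] at hV
  have h1 := A_le_erase hg0 hp (by positivity : (0:ℝ) ≤ δ / 2) (hsum.trans hK3)
  have hg' : ∀ q ∈ (PR δ T c m).erase p, 0 ≤ g q := fun q hq => hg0 q (Finset.mem_of_mem_erase hq)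
  have hA0 := A_nonneg hg' K
  have h2 : A ((PR δ T c m).erase p) g K ≤ A (PR δ T c m) g (K + 1) := by
    have h3 := A_insert (Q := (PR δ T c m).erase p) (g := g) (Finset.notMem_erase p _) K
    rw [Finset.insert_erase hp, A_succ ((PR δ T c m).erase p)] at h3
    have h4 := ek_nonneg hg' (K + 1)
    have h5 := mul_nonneg (hg0 p hp) hA0
    linarith
  rw [hV, hW]
  constructor
  · have h3 : (1 - δ) * A (PR δ T c m) g (K + 1) ≤ A ((PR δ T c m).erase p) g K := by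
      calc (1 - δ) * A (PR δ T c m) g (K + 1) ≤ (1 - δ) * ((1 + δ / 2 + g p) * A ((PR δ T c m).erase p) g K) :=
            mul_le_mul_of_nonneg_left h1 (by linarith)
        _ = ((1 - δ) * (1 + δ / 2 + g p)) * A ((PR δ T c m).erase p) g K := by ring
        _ ≤ 1 * A ((PR δ T c m).erase p) g K := by
            refine mul_le_mul_of_nonneg_right ?_ hA0
            have := hgp p hp
            have h6 := hg0 p hp
            nlinarith
        _ = _ := one_mul _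
    calc (1 - δ) * rp T c v p ^ 2 * A (PR δ T c m) g (K + 1) = rp T c v p ^ 2 * ((1 - δ) * A (PR δ T c m) g (K + 1)) := by
          ring
      _ ≤ rp T c v p ^ 2 * A ((PR δ T c m).erase p) g K := mul_le_mul_of_nonneg_left h3 (sq_nonneg _)
      _ = _ := by ring
  · rw [abs_mul, abs_of_nonneg hA0]
    exact mul_le_mul_of_nonneg_left h2 (abs_nonneg _)

/-- R4' from R3. -/
theorem VV_exp_of (hδ : 0 < δ) (hδ1 : δ ≤ 1 / 32) (hR3 : R3 δ) : ∃ c0 T0 : ℝ, ∀ T c m v : ℝ, T0 ≤ T → Adm c0 T c m →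
    |v| = vv δ c m → Real.exp (KK δ T c m v) / 2 ≤ VV δ T c m v ∧ VV δ T c m v ≤ Real.exp (KK δ T c m v) := by
  obtain ⟨c0, T0, hf⟩ := res_facts hδ hδ1 hR3
  refine ⟨c0, T0, fun T c m v hT hA hv => ?_⟩
  obtain ⟨hT1, hm1, hsum, hgp, hsq⟩ := hf T c m v hT hA hv
  have hmpos : (0:ℝ) < m := by linarith
  obtain ⟨K, hK, hK3⟩ := KR_facts hδ hδ1 hm1
  set g : ℕ → ℝ := fun p => rp T c v p ^ 2 / p with hg
  have hg0 : ∀ q ∈ PR δ T c m, 0 ≤ g q := fun q _ => by simp only [hg]; positivity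
  have hV := VV_eq (c := c) (v := v) hδ hT1 hmpos
  have hKK : KK δ T c m v = ∑ p ∈ PR δ T c m, g p := rfl
  rw [hK] at hV
  have hfull : ∏ p ∈ PR δ T c m, (1 + g p) = A (PR δ T c m) g (K + 1 + 1 + (PR δ T c m).card) := by
    rw [Finset.prod_one_add]
    unfold A
    refine Finset.sum_congr rfl fun S hS => ?_
    rw [if_pos]
    have := Finset.card_le_card (Finset.mem_powerset.1 hS)
    omega
  have hle : VV δ T c m v ≤ ∏ p ∈ PR δ T c m, (1 + g p) := by
    rw [hV, Finset.prod_one_add]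
    unfold A
    refine Finset.sum_le_sum fun S hS => ?_
    split_ifs
    · exact le_rfl
    · exact Finset.prod_nonneg fun p hp => hg0 p (Finset.mem_powerset.1 hS hp)
  rw [hKK, Real.exp_sum]
  have hpi : 0 < ∏ p ∈ PR δ T c m, (1 + g p) := Finset.prod_pos fun p hp => by linarith [hg0 p hp]
  constructor
  · -- the tail
    have hA0 := A_nonneg hg0 (K + 1)
    have h1 : ∏ p ∈ PR δ T c m, (1 + g p) ≤ 17 / 16 * A (PR δ T c m) g (K + 1) := by
      have hs1 : ∑ p ∈ PR δ T c m, g p ≤ 1 / 32 * (((K + 1 : ℕ) : ℝ) + 1) := by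
        push_cast
        have : (0:ℝ) ≤ K := Nat.cast_nonneg K
        nlinarith
      have hs2 : ∑ p ∈ PR δ T c m, g p ≤ 1 / 2 * (((K + 1 + 1 : ℕ) : ℝ) + 1) := by
        push_cast at hs1 ⊢
        have : (0:ℝ) ≤ K := Nat.cast_nonneg K
        nlinarith
      have h2 := A_tail hg0 hs2 (PR δ T c m).card
      have h3 := ek_le_A hg0 (by norm_num : (0:ℝ) ≤ 1 / 32) hs1
      have h4 := A_succ (PR δ T c m) g (K + 1)
      have h5 := ek_nonneg hg0 (K + 1 + 1)
      have h6 : (0:ℝ) ≤ (1 / 2 : ℝ) ^ (PR δ T c m).card := by positivity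
      rw [hfull]
      nlinarith
    have h2 : ∏ p ∈ PR δ T c m, Real.exp (g p) ≤ (∏ p ∈ PR δ T c m, (1 + g p)) * Real.exp (∑ p ∈ PR δ T c m, g p ^ 2) := by
      rw [Real.exp_sum, ← Finset.prod_mul_distrib]
      refine Finset.prod_le_prod (fun p _ => (Real.exp_pos _).le) fun p hp => ?_
      have h8 := hg0 p hp
      have h4 : g p ≤ 1 := by linarith [hgp p hp]
      have h5 := Real.abs_exp_sub_one_sub_id_le (x := g p) (by rw [abs_of_nonneg h8]; exact h4)
      have h6 := (abs_le.1 h5).2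
      have h7 := Real.add_one_le_exp (g p ^ 2)
      nlinarith [sq_nonneg (g p)]
    have h3 : Real.exp (∑ p ∈ PR δ T c m, g p ^ 2) ≤ 3 / 2 := by
      refine (Real.exp_le_exp.2 hsq).trans ?_
      have h4 : Real.exp (1 / 4) ^ 4 ≤ (3 / 2) ^ 4 := by
        rw [← Real.exp_nat_mul]
        have := Real.exp_one_lt_d9
        norm_num
        linarith
      exact le_of_pow_le_pow_left₀ (by norm_num) (by norm_num) h4
    have h4 : (∏ p ∈ PR δ T c m, (1 + g p)) * Real.exp (∑ p ∈ PR δ T c m, g p ^ 2) ≤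
        17 / 16 * A (PR δ T c m) g (K + 1) * (3 / 2) :=
      mul_le_mul h1 h3 (Real.exp_pos _).le (by positivity)
    rw [hV]
    linarith
  · refine hle.trans (Finset.prod_le_prod (fun p hp => by linarith [hg0 p hp]) fun p _ => ?_)
    have := Real.add_one_le_exp (g p)
    linarith

end Pool.Agent.Helper36.UW
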